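import Pool.Agent.T6.H89.Speed.Main

set_option autoImplicit false

/-!
# Minimising the total flow time under an energy budget is NP-hard

Definitions: `Pool/Agent/T6/H89/Speed/Defs.lean` (`Jobs`, `natJobs`, `Valid`, `Schedule`,
`Schedule.done`, `Schedule.energy`, `Schedule.Feasible`, `Schedule.completion`, `Schedule.flow`,
`OPT`, `segAt`, `Describes`, `EfficientAlgorithm`, `EfficientValue`), `Pool/Agent/NPC/Defs.lean`
(`PolyTime`, `InNP`, `bits`) and `Pool/Agent/NPC/Classes.lean` (`InP`).

Proof. Let `β` be the conjugate exponent of `α` and `λ = 2 ^ (1 / β)`. A gadget of scale `a`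
consists of a big job (work `a W`, released at a time `R`) and a small job (work `a w`, released at
`R + a r`), where `W - w = D`, `r = β (λ - 1) D`. For every multiplier `z` a potential function
shows that a gadget costs at least `β z a (λ W + w) - a r` if the big job is finished first and
at least `β z a (λ w + W)` otherwise (cost = flow time + `z ^ α / (α - 1)` times energy), so a
schedule in which the gadgets of the first kind have total scale `t` has a flow time at least
`Q_t ^ β E ^ (1 - β) - t r`, where `Q_t` is affine in `t`. For the budget `E = Q_T` this is, by
Bernoulli's inequality, least for `t = T`, where it is attained; hence Subset Sum reduces to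
the problem. All numbers are scaled and rounded with sufficiently many bits.
-/

namespace Pool.Agent.Results.MP_04f351_lc.NPHard

open Pool.Agent.NPC Pool.Agent.T6.H89.Speed

/-- Let `α > 1` be rational and let the power function be `s ^ α`.
(1) For every language `L` in `NP` there is a polynomial-time computable map from words `x` to
triples of a list of jobs with integral release times and works, an integral energy budget `E x > 0`
(for which there is a feasible schedule) and a number `v x` such that `OPT ≤ v x` if `x ∈ L` and
`OPT ≥ v x + 2` if `x ∉ L`.
(2) If there is an efficient algorithm (given jobs, an energy budget and `ε`, it outputs a schedule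
of energy at most the budget and of total flow time at most `OPT + ε`), then `P = NP`.
(3) If there is a polynomial-time algorithm computing `OPT` up to an additive error less than `1`,
then `P = NP`. -/
theorem result (α : ℚ) (hα : 1 < α) :
    (∀ L : Set (List Bool), InNP L → ∃ (N : List Bool → List (ℕ × ℕ)) (E v : List Bool → ℕ),
      PolyTime (fun x => bits (N x, E x, v x)) ∧ ∀ x, Valid (natJobs (N x)) ∧ 0 < E x ∧
        (∃ σ : Schedule (natJobs (N x)).length, σ.Feasible (natJobs (N x)) ∧
          σ.energy α ≤ ENNReal.ofReal (E x : ℝ)) ∧
        (x ∈ L → OPT α (natJobs (N x)) (E x) ≤ v x) ∧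
        (x ∉ L → (v x : ℝ) + 2 ≤ OPT α (natJobs (N x)) (E x))) ∧
    (EfficientAlgorithm α → ∀ L : Set (List Bool), InNP L → InP L) ∧
    (EfficientValue α → ∀ L : Set (List Bool), InNP L → InP L) :=
  ⟨fun _ hL => hard α hα hL, fun h _ hL => collapse α hα h hL,
    fun h _ hL => collapse_value α hα h hL⟩

end Pool.Agent.Results.MP_04f351_lc.NPHard
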